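import Mathlib

/-!
# MS-12: pure commutative algebra for MP_dbae29_al

A square matrix of square zero over a commutative ring which is exact modulo every maximal ideal
is exact; consequence for polynomial matrices over the integers which are exact at every number
field valued point with nonzero `j`-th coordinate.
-/

set_option autoImplicit false

namespace Pool.Agent.Helper27.Mess

open Finset

universe u

/-- Over a field, a square-zero matrix with kernel contained in its range has a contracting
homotopy. -/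
theorem exists_homotopy {k : Type*} [Field k] {n : Type*} [Fintype n] [DecidableEq n]
    (M : Matrix n n k) (hM : M * M = 0)
    (hex : ∀ v : n → k, M.mulVec v = 0 → ∃ w, M.mulVec w = v) :
    ∃ H : Matrix n n k, H * M + M * H = 1 := by
  classical
  set f : (n → k) →ₗ[k] (n → k) := Matrix.mulVecLin M with hf
  have hff : ∀ x, f (f x) = 0 := by
    intro x
    simp only [hf, Matrix.mulVecLin_apply, Matrix.mulVec_mulVec, hM, Matrix.zero_mulVec]
  obtain ⟨g, hg⟩ := f.rangeRestrict.exists_rightInverse_of_surjective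
    (LinearMap.range_eq_top.2 f.surjective_rangeRestrict)
  obtain ⟨p, hp⟩ := (LinearMap.range f).subtype.exists_leftInverse_of_injective
    (LinearMap.ker_eq_bot.2 (Subtype.val_injective))
  have hg' : ∀ y : LinearMap.range f, f (g y) = (y : n → k) := by
    intro y
    have := congrArg (fun u => ((u y : LinearMap.range f) : n → k)) hg
    simpa using this
  have hp' : ∀ y : LinearMap.range f, p (y : n → k) = y := by
    intro y
    have := congrArg (fun u => (u y : LinearMap.range f)) hp
    simpa using this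
  have hpf : ∀ x, f ((p x : LinearMap.range f) : n → k) = 0 := by
    intro x
    obtain ⟨z, hz⟩ := (p x).2
    rw [← hz, hff]
  set q : (n → k) →ₗ[k] (n → k) := (LinearMap.range f).subtype ∘ₗ p with hq
  set h : (n → k) →ₗ[k] (n → k) := (LinearMap.id - q) ∘ₗ g ∘ₗ p with hh
  have key : ∀ x, h (f x) + f (h x) = x := by
    intro x
    -- f (h x) = p x
    have h1 : f (h x) = q x := by
      simp only [hh, hq, LinearMap.comp_apply, LinearMap.sub_apply, LinearMap.id_apply, map_sub,
        hg', Submodule.subtype_apply, hpf, sub_zero]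
    have h2 : h (f x) = g ⟨f x, LinearMap.mem_range_self f x⟩
        - q (g ⟨f x, LinearMap.mem_range_self f x⟩) := by
      have : p (f x) = ⟨f x, LinearMap.mem_range_self f x⟩ := hp' ⟨f x, _⟩
      simp only [hh, LinearMap.comp_apply, LinearMap.sub_apply, LinearMap.id_apply, this]
    set y := g ⟨f x, LinearMap.mem_range_self f x⟩ with hy
    have h3 : f (x - y) = 0 := by
      rw [map_sub, hy, hg']
      simp
    have h4 : q (x - y) = x - y := by
      obtain ⟨z, hz⟩ := hex (x - y) h3
      have : p (x - y) = ⟨f z, LinearMap.mem_range_self f z⟩ := by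
        have := hp' ⟨f z, LinearMap.mem_range_self f z⟩
        rw [← this]
        congr 1
        exact hz.symm
      simp only [hq, LinearMap.comp_apply, this, Submodule.subtype_apply]
      exact hz
    rw [h1, h2]
    rw [map_sub] at h4
    have : q x = x - y + q y := by
      rw [← h4]; abel
    rw [this]; abel
  refine ⟨LinearMap.toMatrix' h, ?_⟩
  have hM' : M = LinearMap.toMatrix' f := by
    rw [hf, ← Matrix.toLin'_apply', LinearMap.toMatrix'_toLin']
  have : h ∘ₗ f + f ∘ₗ h = LinearMap.id := by
    refine LinearMap.ext fun x => ?_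
    simpa using key x
  rw [hM', ← LinearMap.toMatrix'_comp, ← LinearMap.toMatrix'_comp, ← map_add, this,
    LinearMap.toMatrix'_id]

/-- A square-zero matrix over a commutative ring, exact modulo every maximal ideal, is exact. -/
theorem exact_of_fibres {A : Type u} [CommRing A] {n : Type*} [Fintype n] [DecidableEq n]
    (M : Matrix n n A) (hM : M * M = 0)
    (hex : ∀ (L : Type u) [Field L] (ψ : A →+* L), Function.Surjective ψ → ∀ v : n → L,
      (M.map ψ).mulVec v = 0 → ∃ w, (M.map ψ).mulVec w = v)
    (v : n → A) (hv : M.mulVec v = 0) : ∃ w, M.mulVec w = v := by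
  classical
  let I : Ideal A :=
    { carrier := {s | ∃ w, M.mulVec w = s • v}
      add_mem' := by
        rintro s t ⟨w, hw⟩ ⟨w', hw'⟩
        exact ⟨w + w', by rw [Matrix.mulVec_add, hw, hw', add_smul]⟩
      zero_mem' := ⟨0, by simp⟩
      smul_mem' := by
        rintro c s ⟨w, hw⟩
        exact ⟨c • w, by rw [Matrix.mulVec_smul, hw, smul_eq_mul, mul_smul]⟩ }
  have hI : ∀ s, s ∈ I ↔ ∃ w, M.mulVec w = s • v := fun s => Iff.rfl
  by_cases htop : I = ⊤
  · have : (1 : A) ∈ I := by rw [htop]; trivial
    obtain ⟨w, hw⟩ := this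
    exact ⟨w, by rw [hw, one_smul]⟩
  exfalso
  obtain ⟨m, hm, hIm⟩ := Ideal.exists_le_maximal I htop
  let _ : Field (A ⧸ m) := Ideal.Quotient.field m
  obtain ⟨H', hH'⟩ := exists_homotopy (M.map (Ideal.Quotient.mk m))
    (by rw [← Matrix.map_mul, hM]; ext i j; simp)
    (hex (A ⧸ m) (Ideal.Quotient.mk m) Ideal.Quotient.mk_surjective)
  -- lift the homotopy
  have hsurj : Function.Surjective (Ideal.Quotient.mk m) := Ideal.Quotient.mk_surjective
  choose lift hlift using hsurj
  set H : Matrix n n A := H'.map lift with hHdef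
  have hH : H.map (Ideal.Quotient.mk m) = H' := by
    ext i j
    simp [hHdef, hlift]
  set T : Matrix n n A := H * M + M * H with hT
  have hTm : T.map (Ideal.Quotient.mk m) = 1 := by
    have : T.map (Ideal.Quotient.mk m) = (Ideal.Quotient.mk m).mapMatrix T := rfl
    rw [this, hT, map_add, map_mul, map_mul]
    simp only [RingHom.mapMatrix_apply]
    rw [hH, hH']
  have hdet : Ideal.Quotient.mk m T.det = 1 := by
    rw [RingHom.map_det, RingHom.mapMatrix_apply, hTm, Matrix.det_one]
  have hcomm : T * M = M * T := by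
    rw [hT, add_mul, mul_add, Matrix.mul_assoc H M M, hM, ← Matrix.mul_assoc M M H, hM]
    simp [Matrix.mul_assoc]
  have hadj : T.det • (T.adjugate * M) = T.det • (M * T.adjugate) := by
    calc T.det • (T.adjugate * M) = (T.adjugate * M) * (T.det • 1) := by simp
      _ = (T.adjugate * M) * (T * T.adjugate) := by rw [Matrix.mul_adjugate]
      _ = T.adjugate * (M * T) * T.adjugate := by simp only [Matrix.mul_assoc]
      _ = T.adjugate * (T * M) * T.adjugate := by rw [hcomm]
      _ = (T.adjugate * T) * (M * T.adjugate) := by simp only [Matrix.mul_assoc]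
      _ = T.det • (M * T.adjugate) := by rw [Matrix.adjugate_mul]; simp
  have h1 : T.mulVec v = M.mulVec (H.mulVec v) := by
    rw [hT, Matrix.add_mulVec, ← Matrix.mulVec_mulVec, hv, Matrix.mulVec_zero, zero_add,
      Matrix.mulVec_mulVec]
  have h2 : T.det * T.det ∈ I := by
    refine (hI _).2 ⟨T.det • T.adjugate.mulVec (H.mulVec v), ?_⟩
    have h3 : T.det • v = T.adjugate.mulVec (T.mulVec v) := by
      rw [Matrix.mulVec_mulVec, Matrix.adjugate_mul, Matrix.smul_mulVec, Matrix.one_mulVec]
    calc M.mulVec (T.det • T.adjugate.mulVec (H.mulVec v))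
        = (T.det • (M * T.adjugate)).mulVec (H.mulVec v) := by
          rw [Matrix.mulVec_smul, Matrix.mulVec_mulVec (H.mulVec v), Matrix.smul_mulVec]
      _ = (T.det • (T.adjugate * M)).mulVec (H.mulVec v) := by rw [hadj]
      _ = T.det • T.adjugate.mulVec (M.mulVec (H.mulVec v)) := by
          rw [Matrix.mulVec_mulVec (H.mulVec v), Matrix.smul_mulVec]
      _ = (T.det * T.det) • v := by rw [← h1, ← h3, mul_smul]
  have h3 : Ideal.Quotient.mk m (T.det * T.det) = 0 :=
    Ideal.Quotient.eq_zero_iff_mem.2 (hIm h2)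
  rw [map_mul, hdet, one_mul] at h3
  exact one_ne_zero h3

/-- A field generated, up to inverting integers and one element, by finitely many elements is a
number field. -/
theorem numberField_of_gen (r : ℕ) (j : Fin r) (L : Type) [Field L] (β : Fin r → L)
    (hchar : ∀ B : ℤ, B ≠ 0 → (B : L) ≠ 0) (hj : β j ≠ 0)
    (hgen : ∀ x : L, ∃ (B : ℤ) (N : ℕ) (a : MvPolynomial (Fin r) ℤ), B ≠ 0 ∧
      x * ((B : L) * β j ^ N) = MvPolynomial.aeval β a) : NumberField L := by
  have : CharZero L := charZero_of_inj_zero (by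
    intro n hn
    by_contra h
    exact hchar n (by exact_mod_cast h) (by exact_mod_cast hn))
  have : Algebra.FiniteType ℚ L := by
    classical
    refine ⟨⟨Finset.univ.image β ∪ {(β j)⁻¹}, ?_⟩⟩
    rw [eq_top_iff]
    intro x _
    set W := Algebra.adjoin ℚ ((Finset.univ.image β ∪ {(β j)⁻¹} : Finset L) : Set L) with hW
    have hβ : ∀ i, β i ∈ W := fun i => Algebra.subset_adjoin (by simp)
    have hβj : (β j)⁻¹ ∈ W := Algebra.subset_adjoin (by simp)
    have hae : ∀ a : MvPolynomial (Fin r) ℤ, MvPolynomial.aeval β a ∈ W := by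
      intro a
      induction a using MvPolynomial.induction_on with
      | C n =>
        rw [MvPolynomial.aeval_C]
        simp
      | add p q hp hq => rw [map_add]; exact W.add_mem hp hq
      | mul_X p i hp => rw [map_mul, MvPolynomial.aeval_X]; exact W.mul_mem hp (hβ i)
    obtain ⟨B, N, a, hB, hx⟩ := hgen x
    have hBL := hchar B hB
    have : x = (algebraMap ℚ L ((B : ℚ)⁻¹) * (β j)⁻¹ ^ N) * MvPolynomial.aeval β a := by
      rw [← hx, map_inv₀, map_intCast, inv_pow]
      field_simp
    rw [this]
    exact W.mul_mem (W.mul_mem (W.algebraMap_mem _) (W.pow_mem hβj N)) (hae a)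
  have : Module.Finite ℚ L := finite_of_finite_type_of_isJacobsonRing ℚ L
  exact { to_charZero := inferInstance, to_finiteDimensional := inferInstance }

/-- MS-12: pure commutative algebra. -/
theorem comm_alg (r R : ℕ) (M : Matrix (Fin R) (Fin R) (MvPolynomial (Fin r) ℤ)) (hM : M * M = 0)
    (j : Fin r)
    (hex : ∀ (L : Type) [Field L] [NumberField L] (β : Fin r → L), β j ≠ 0 →
      ∀ v : Fin R → L, (M.map (MvPolynomial.aeval β)).mulVec v = 0 →
        ∃ w, (M.map (MvPolynomial.aeval β)).mulVec w = v)
    (v : Fin R → MvPolynomial (Fin r) ℤ) (hv : M.mulVec v = 0) :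
    ∃ (B : ℤ) (N : ℕ) (w : Fin R → MvPolynomial (Fin r) ℤ), B ≠ 0 ∧
      M.mulVec w = (MvPolynomial.C B * MvPolynomial.X j ^ N) • v := by
  classical
  let S : Submonoid (MvPolynomial (Fin r) ℤ) :=
    { carrier := {s | ∃ (B : ℤ) (N : ℕ), B ≠ 0 ∧ s = MvPolynomial.C B * MvPolynomial.X j ^ N}
      one_mem' := ⟨1, 0, one_ne_zero, by simp⟩
      mul_mem' := by
        rintro s t ⟨B, N, hB, rfl⟩ ⟨B', N', hB', rfl⟩
        refine ⟨B * B', N + N', mul_ne_zero hB hB', ?_⟩
        rw [MvPolynomial.C_mul, pow_add]; ring }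
  have hS : ∀ s, s ∈ S ↔ ∃ (B : ℤ) (N : ℕ), B ≠ 0 ∧
      s = MvPolynomial.C B * MvPolynomial.X j ^ N := fun s => Iff.rfl
  have hS0 : S ≤ nonZeroDivisors (MvPolynomial (Fin r) ℤ) := by
    rintro s ⟨B, N, hB, rfl⟩
    rw [mem_nonZeroDivisors_iff_ne_zero]
    refine mul_ne_zero ?_ (pow_ne_zero _ (MvPolynomial.X_ne_zero j))
    rw [Ne, MvPolynomial.C_eq_zero]
    exact hB
  let A := Localization S
  set φ : MvPolynomial (Fin r) ℤ →+* A := algebraMap _ _ with hφ
  have hinj : Function.Injective φ := IsLocalization.injective A hS0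
  have hunit : ∀ s ∈ S, IsUnit (φ s) := fun s hs => IsLocalization.map_units A ⟨s, hs⟩
  -- exactness over the localization
  obtain ⟨w, hw⟩ := exact_of_fibres (M.map φ) (by rw [← Matrix.map_mul, hM]; ext i j; simp) (by
    intro L _ ψ hψ v hv
    set β : Fin r → L := fun i => ψ (φ (MvPolynomial.X i)) with hβ
    have hcomp : ∀ a : MvPolynomial (Fin r) ℤ, ψ (φ a) = MvPolynomial.aeval β a := by
      intro a
      have : (ψ.comp φ) = (MvPolynomial.aeval β : _ →ₐ[ℤ] L).toRingHom := by
        refine MvPolynomial.ringHom_ext (fun n => ?_) (fun i => ?_)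
        · simp
        · simp [hβ]
      exact congrArg (fun u => u a) this
    have hchar : ∀ B : ℤ, B ≠ 0 → (B : L) ≠ 0 := by
      intro B hB
      have h1 : IsUnit (ψ (φ (MvPolynomial.C B))) :=
        (hunit _ ⟨B, 0, hB, by simp⟩).map _
      have h2 : ψ (φ (MvPolynomial.C B)) = (B : L) := by
        rw [hcomp]; simp
      rw [← h2]
      exact h1.ne_zero
    have hj : β j ≠ 0 :=
      ((hunit _ ⟨1, 1, one_ne_zero, by simp⟩).map ψ).ne_zero
    have hnf : NumberField L := by
      refine numberField_of_gen r j L β hchar hj ?_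
      intro x
      obtain ⟨y, rfl⟩ := hψ x
      obtain ⟨⟨a, ⟨s, hs⟩⟩, has⟩ := IsLocalization.surj S y
      obtain ⟨B, N, hB, rfl⟩ := hs
      refine ⟨B, N, a, hB, ?_⟩
      have h1 := congrArg ψ has
      rw [map_mul] at h1
      have h2 : ψ (φ a) = MvPolynomial.aeval β a := hcomp a
      rw [← h2]
      refine Eq.trans ?_ h1
      congr 1
      have h3 := hcomp (MvPolynomial.C B * MvPolynomial.X j ^ N)
      refine Eq.trans ?_ h3.symm
      simp
    have hmap : (M.map φ).map ψ = M.map (MvPolynomial.aeval β) := by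
      ext a b
      simp only [Matrix.map_apply]
      exact hcomp _
    rw [hmap] at hv ⊢
    exact hex L β hj v hv) (fun i => φ (v i)) (by
      have : (M.map φ).mulVec (φ ∘ v) = φ ∘ (M.mulVec v) := by
        ext i
        simp [Matrix.mulVec, dotProduct, map_sum, map_mul]
      have h0 : (fun i => φ (v i)) = φ ∘ v := rfl
      rw [h0, this, hv]
      ext i
      simp)
  -- clear denominators
  obtain ⟨⟨s, hs⟩, hsw⟩ := IsLocalization.exist_integer_multiples S (Finset.univ) w
  choose w' hw' using fun i => hsw i (Finset.mem_univ i)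
  obtain ⟨B, N, hB, rfl⟩ := (hS s).1 hs
  refine ⟨B, N, w', hB, ?_⟩
  have h0 : ∀ i, φ (w' i) = φ (MvPolynomial.C B * MvPolynomial.X j ^ N) * w i := by
    intro i
    have := hw' i
    rw [Algebra.smul_def] at this
    exact this
  ext1 i
  apply hinj
  have h1 : ∑ k, φ (M i k) * w k = φ (v i) := congrFun hw i
  have h2 : φ (M.mulVec w' i) = ∑ k, φ (M i k) * φ (w' k) := by
    simp [Matrix.mulVec, dotProduct, map_sum, map_mul]
  rw [h2, Pi.smul_apply, smul_eq_mul, map_mul _ _ (v i), ← h1, Finset.mul_sum]
  refine Finset.sum_congr rfl fun k _ => ?_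
  rw [h0]; ring

end Pool.Agent.Helper27.Mess
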